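import Pool.Agent.H19.FLN.F1s
import Pool.Agent.H31.W.H3.D2G.RecN
import Pool.Agent.H31.W.H73.D2.Tmw
import Pool.Agent.H3.W.Bas
import Pool.Agent.H31.W1.H91.D2.TlcA
import Pool.Agent.H31.W1.H91.FR.QpG

/-!
# The dead velocity of a place in a subclass

`F1US`, `VelUS`: as `F1UZ`, `VelUZ`, the conclusion for a nonempty subclass, chosen after the windows.
`celZ_f1s`: then there is no drop at the place `r` (the conclusion of `CelZ` is about the levels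
only). `F1UZ.s`: `F1UZ` implies `F1US`.
-/

set_option autoImplicit false

namespace Pool.W.PKG

open Pool.PKG

open Finset Real
open Pool.Agent.H49.Ent Pool.Agent.H32.Dense Pool.STK Pool.KA Pool.KSAT Pool.K2S Pool.PB
open Pool.GEN Pool.S6C Pool.STAT Pool.CHT Pool.GRW Pool.ONE Pool.STA
open Pool.LBT (LSys ThrOf)
open Pool.LEV (Law)
open Pool.ALL (RateOf)
open Pool.ISO (PtD lvN WinD)
open Pool.V1E (vF vF_ge TlW HnN HfN VfW XiN x10f_fin SlH VfN x10n_fin VuN vfw_of rstC)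
open Pool.LA91 (TlAt epT slT FaQ sumQ qJets qJet)
open Pool.OWN68 (F1)
open Pool.RCD (vg)

/-- **The first jet of the place** `r` is few bits, under the hypothesis `Z lam` on the class, in a
nonempty subclass chosen after the windows. -/
def F1US (m r : ℕ) (h : ℝ) (Sl : ℕ → ℝ) (κ : ℕ → Pool.PKG.Kg) {ι Λ : Type} (Q : Pool.PKG.PropG m ι)
    (Z : Pool.PKG.PropZ m Λ) : Prop :=
  ∀ al : ℝ, 0 < al → ∀ K₀ : ℝ, 0 < K₀ → ∀ S₀ : ℕ, 1 ≤ S₀ →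
  ∃ (Kr : ℝ) (Nr : ℕ) (Ar Vr : ℕ → ℝ), 1 ≤ Kr ∧ (∀ k < Nr, -Kr ≤ Vr k ∧ Vr k ≤ Ar k ∧ Ar k ≤ Kr) ∧
  ∀ S₂ : ℕ, S₀ ≤ S₂ → ∀ dd : ℝ, 0 < dd →
  ∃ (lam : Λ) (kf φ : ℝ), Sl r ≤ kf ∧ 0 < φ ∧
  ∃ (K₁ : ℝ) (Nv : ℕ) (Vv : ℕ → ℝ), (∀ j < Nv, -K₁ ≤ Vv j ∧ Vv j ≤ K₁) ∧ ∀ K' : ℝ, K₁ ≤ K' →
  ∃ ε₀ : ℝ, 0 < ε₀ ∧ ∀ ε : ℝ, 0 < ε → ε ≤ ε₀ →
  ∀ (S : Pool.PB.PCl m) (g₀ : ℝ → ℝ) (P : List (Fin m) × Fin m → ℝ → ℝ → ℝ)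
    (θ : ℝ) (P₂ : ℕ → List (Fin m) × Fin m → ℝ → ℝ → ℝ) (θ₂ Eb e₂ : ℕ → ℝ) (c : ℕ → Fin m)
    (Pt : ℝ → ℝ → ℝ) (rt : ℝ → ℝ) (L T : ℕ → ℝ → ℝ → ℝ) (G : Set ℝ) (g : ℝ),
    IsClosed G → g ∈ G → (∀ l < m, HasDerivAt (fun x => L l x x) (Sl l) g) →
    Z lam S P θ c Pt rt L T κ G g →
    ∃ (p : ℕ → ι) (M : ℕ) (B₀ B₁ : ℕ → ℝ),
    (∀ j < M, B₀ j < B₁ j) ∧ ∀ k₀ : ℕ → ℕ, (∀ j < M, Q (p j) (k₀ j) S P θ c Pt rt L T κ G g) →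
    ∃ q₁ : ℝ, 0 < q₁ ∧ ∀ (q t : ℝ) (x : ℕ → ℝ),
      q < q₁ → (∀ j < M, x j ∈ G ∧ t + B₀ j * q ≤ x j ∧ x j ≤ t + B₁ j * q ∧
        Q (p j) (k₀ j) S P θ c Pt rt L T κ G (x j)) →
      ∀ (N : ℕ) (A V : ℕ → ℝ) (N' : ℕ) (V' : ℕ → ℝ),
      Pool.W.PKG.RecG S al g₀ P θ P₂ θ₂ Eb e₂ c Pt rt h K₀ g L T Sl κ G S₀ N A V S₂ N' V' K' ε q t →
      (∀ k < Nr, ∃ j < N, A j = Ar k ∧ V j = Vr k) → (∀ k < Nv, ∃ j < N', V' j = Vv k) →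
      ∀ (pf : ℕ → ℝ) (pr : ℝ) (Nf : ℕ → ℕ → ℝ),
      (∀ l < r, L l t t - φ * q ≤ pf l ∧ pf l ≤ L l t t) →
      L r t t - φ * q ≤ pr → pr ≤ L r t t →
      (∀ l < r, ∀ j ≤ 1, Nf l j = L l t t + kf * q - (j : ℕ) * t) →
      ∃ S' : Pool.PB.PCl m, S'.Ne ∧
        (∀ (τ : ℝ) (J : ℕ) (F : Pool.KA.Fam m J) (A : F.Ω → Prop), S'.St τ J F A → S.St τ J F A) ∧
        ∃ e : ℝ, 0 < e ∧ Pool.OWN68.F1 S' (fun J F => Pool.PB.ptr F J) (Pool.RCD.vg t) (fun _ F => F.T)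
          (Pool.LA91.qJets m c 0 r 1 (fun _ _ => t) (fun l _ => pf l) Nf)
          (Pool.LA91.qJet m ((range r).image c) (c r) 1 t pr (L r t t + (Sl r - 1) * q - t)) e (dd * q)


end Pool.W.PKG
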